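import Pool.Agent.Helper81.AD2.Goals

/-!
# The invariants of diagrams with separately ordered tails and heads
-/

namespace Pool.Agent.Helper86.AD2.INV

open Pool.Agent.Helper88.AD Pool.Agent.Helper81.AD2

variable {d : ℕ}

/-- `x` comes before `y` in `w`. -/
def Bf (w : List (Pt d)) (x y : Pt d) : Prop := w.idxOf x < w.idxOf y

instance (w : List (Pt d)) (x y : Pt d) : Decidable (Bf w x y) :=
  inferInstanceAs (Decidable (_ < _))

theorem idx (u v : List (Pt d)) (a c x : Pt d) :
    (u ++ a :: c :: v).idxOf x = if x ∈ u then u.idxOf x else if a = x then u.length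
      else if c = x then u.length + 1 else u.length + 2 + v.idxOf x := by
  split_ifs with h1 h2 h3
  · rw [List.idxOf_append_of_mem h1]
  · rw [List.idxOf_append_of_notMem h1, h2, List.idxOf_cons_self]; rfl
  · rw [List.idxOf_append_of_notMem h1, List.idxOf_cons_ne _ h2, h3, List.idxOf_cons_self]
  · rw [List.idxOf_append_of_notMem h1, List.idxOf_cons_ne _ h2, List.idxOf_cons_ne _ h3]
    omega

theorem bf_swap (u v : List (Pt d)) {a c : Pt d} {x y : Pt d}
    (h1 : ¬ (x = a ∧ y = c)) (h2 : ¬ (x = c ∧ y = a)) :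
    Bf (u ++ a :: c :: v) x y ↔ Bf (u ++ c :: a :: v) x y := by
  unfold Bf
  rw [idx, idx, idx, idx]
  have hx : x ∈ u → u.idxOf x < u.length := List.idxOf_lt_length_of_mem
  have hy : y ∈ u → u.idxOf y < u.length := List.idxOf_lt_length_of_mem
  split_ifs <;> first | omega | (subst_vars; simp_all; done) | (subst_vars; simp_all; omega)

/-- The invariant. -/
def inv (w : List (Pt d)) : (Bool → Fin d → ℕ) × (Fin d → Bool) :=
  (fun b i => (Finset.univ.filter fun j : Fin d => Bf w (j, b) (i, b)).card, dirs w)

theorem inv_swap (u v : List (Pt d)) {i j : Fin d} (b : Bool) (hij : i ≠ j) :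
    inv (u ++ (i, b) :: (j, !b) :: v) = inv (u ++ (j, !b) :: (i, b) :: v) := by
  have hb : b ≠ !b := by cases b <;> simp
  unfold inv
  congr 1
  · funext b' k
    congr 1
    apply Finset.filter_congr
    intro l _
    apply bf_swap
    · rintro ⟨h1, h2⟩
      have e1 := congrArg Prod.snd h1
      have e2 := congrArg Prod.snd h2
      exact hb (e1.symm.trans e2)
    · rintro ⟨h1, h2⟩
      have e1 := congrArg Prod.snd h1
      have e2 := congrArg Prod.snd h2
      exact hb (e2.symm.trans e1)
  · funext k
    unfold dirs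
    have := @bf_swap d u v (i, b) (j, !b) (k, true) (k, false)
      (by rintro ⟨h1, h2⟩
          exact hij ((congrArg Prod.fst h1).symm.trans (congrArg Prod.fst h2)))
      (by rintro ⟨h1, h2⟩
          exact hij ((congrArg Prod.fst h2).symm.trans (congrArg Prod.fst h1)))
    exact decide_eq_decide.2 this

/-- The linear map. -/
noncomputable def L (d : ℕ) : V d →ₗ[ℚ] ((Bool → Fin d → ℕ) × (Fin d → Bool) →₀ ℚ) :=
  Finsupp.linearCombination ℚ fun w : Dg d => Finsupp.single (inv w.1) (1 : ℚ)

theorem L_el {w : List (Pt d)} (h : IsD w) : L d (el w) = Finsupp.single (inv w) 1 := by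
  unfold L
  rw [el_of h, Finsupp.linearCombination_single, one_smul]

theorem N1_le : N1 d ≤ LinearMap.ker (L d) := by
  unfold N1
  rw [Submodule.span_le]
  rintro v ⟨u, w, i, j, b, hij, rfl⟩
  show L d _ = 0
  have hp : (u ++ (i, b) :: (j, !b) :: w).Perm (u ++ (j, !b) :: (i, b) :: w) :=
    List.Perm.append_left _ (List.Perm.swap _ _ _)
  by_cases h : IsD (u ++ (i, b) :: (j, !b) :: w)
  · rw [map_sub, L_el h, L_el ((isD_perm hp).1 h), inv_swap u w b hij, sub_self]
  · rw [el_of_not h, el_of_not (fun h' => h ((isD_perm hp).2 h')), sub_self, map_zero]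

/-- The key of an endpoint. -/
def key (f : Pt d → ℕ) (x : Pt d) : ℕ := 2 * f x + if x.2 then 1 else 0

/-- Sorting. -/
theorem exists_sorted (g : Pt d → ℕ) (hg : Function.Injective g) :
    ∃ w : List (Pt d), IsD w ∧ ∀ x y, Bf w x y ↔ g x < g y := by
  classical
  let r : Pt d → Pt d → Prop := fun x y => g x ≤ g y
  have : Std.Total r := ⟨fun x y => le_total _ _⟩
  have : IsTrans (Pt d) r := ⟨fun x y z h h' => le_trans h h'⟩
  let w := List.insertionSort r (Finset.univ : Finset (Pt d)).toList
  have hp : w.Perm (Finset.univ : Finset (Pt d)).toList := List.perm_insertionSort r _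
  have hs : w.Pairwise r := List.pairwise_insertionSort r _
  have hn : w.Nodup := hp.nodup_iff.2 (Finset.nodup_toList _)
  have hm : ∀ x, x ∈ w := fun x => hp.mem_iff.2 (by simp)
  have key : ∀ x y, Bf w x y → g x < g y := by
    intro x y h
    have hx := List.idxOf_lt_length_of_mem (hm x)
    have hy := List.idxOf_lt_length_of_mem (hm y)
    have h1 := List.pairwise_iff_getElem.1 hs _ _ hx hy h
    rw [List.getElem_idxOf hx, List.getElem_idxOf hy] at h1
    refine lt_of_le_of_ne h1 fun e => ?_
    rw [hg e] at h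
    exact lt_irrefl _ h
  refine ⟨w, (isD_iff w).2 ⟨hn, hm⟩, fun x y => ⟨key x y, fun h => ?_⟩⟩
  by_contra h'
  unfold Bf at h'
  rcases Nat.lt_or_eq_of_le (not_lt.1 h') with h2 | h2
  · exact absurd (key y x h2) (not_lt.2 h.le)
  · have := (List.idxOf_inj (hm y)).1 h2
    rw [this] at h
    exact lt_irrefl _ h

theorem card_lt (σ : Equiv.Perm (Fin d)) (i : Fin d) :
    (Finset.univ.filter fun j : Fin d => σ j < σ i).card = (σ i : ℕ) := by
  have : (Finset.univ.filter fun j : Fin d => σ j < σ i) =
      (Finset.Iio (σ i)).map σ.symm.toEmbedding := by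
    ext j
    simp
  rw [this, Finset.card_map, Fin.card_Iio]

theorem exists_dg (σ : Bool → Equiv.Perm (Fin d)) (ε : Fin d → Bool) (h : Ordd σ ε) :
    ∃ w : List (Pt d), IsD w ∧ inv w = (fun b i => (σ b i : ℕ), ε) := by
  obtain ⟨f, hf, ho⟩ := h
  have hlt : ∀ b i j, σ b i < σ b j ↔ f (i, b) < f (j, b) := by
    intro b i j
    refine ⟨ho b i j, fun h => ?_⟩
    by_contra h'
    rcases lt_or_eq_of_le (not_lt.1 h') with h2 | h2
    · exact absurd (ho b j i h2) (not_lt.2 h.le)
    · rw [(σ b).injective h2] at h
      exact lt_irrefl _ h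
  have hinj : Function.Injective (key f) := by
    rintro ⟨i, b⟩ ⟨j, c⟩ h
    unfold key at h
    have hbc : b = c := by
      cases b <;> cases c <;> simp at h ⊢ <;> omega
    subst hbc
    have h1 : f (i, b) = f (j, b) := by
      simp only at h; omega
    have h2 : σ b i = σ b j := by
      refine le_antisymm (not_lt.1 fun h3 => ?_) (not_lt.1 fun h3 => ?_)
      · have := (hlt b j i).1 h3; omega
      · have := (hlt b i j).1 h3; omega
    rw [(σ b).injective h2]
  obtain ⟨w, hw, hb⟩ := exists_sorted (key f) hinj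
  refine ⟨w, hw, ?_⟩
  unfold inv
  congr 1
  · funext b i
    rw [← card_lt (σ b) i]
    congr 1
    apply Finset.filter_congr
    intro j _
    rw [hb, hlt]
    unfold key
    simp only
    omega
  · funext i
    unfold dirs
    have h1 : w.idxOf (i, true) < w.idxOf (i, false) ↔ key f (i, true) < key f (i, false) :=
      hb (i, true) (i, false)
    have h2 : key f (i, true) < key f (i, false) ↔ ε i = true := by
      unfold key
      simp only [if_true]
      obtain ⟨ha, hb'⟩ := hf i
      cases he : ε i
      · have := hb' he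
        simp; omega
      · have := ha he
        simp; omega
    cases he : ε i
    · rw [he] at h2
      simp only [Bool.false_eq_true, iff_false] at h2
      rw [decide_eq_false_iff_not, h1]
      exact h2
    · rw [decide_eq_true_iff, h1, h2, he]

theorem t : S_INV := by
  classical
  intro d
  let P := {p : (Bool → Equiv.Perm (Fin d)) × (Fin d → Bool) // Ordd p.1 p.2}
  have : Fintype P := Fintype.ofFinite P
  let c : P → ((Bool → Fin d → ℕ) × (Fin d → Bool)) := fun p => (fun b i => (p.1.1 b i : ℕ), p.1.2)
  have hc : Function.Injective c := by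
    rintro ⟨⟨σ, ε⟩, h⟩ ⟨⟨σ', ε'⟩, h'⟩ e
    have e1 : (fun b i => ((σ b i : Fin d) : ℕ)) = fun b i => ((σ' b i : Fin d) : ℕ) :=
      congrArg Prod.fst e
    have e2 : ε = ε' := congrArg Prod.snd e
    have e3 : σ = σ' := by
      funext b
      ext i
      exact congrFun (congrFun e1 b) i
    subst e2; subst e3; rfl
  have hli : LinearIndependent ℚ fun p : P => (Finsupp.single (c p) (1 : ℚ)) := by
    have := (Finsupp.basisSingleOne (R := ℚ)
      (ι := (Bool → Fin d → ℕ) × (Fin d → Bool))).linearIndependent.comp c hc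
    convert this using 2
    simp
  have hr : ∀ p : P, Finsupp.single (c p) (1 : ℚ) ∈ LinearMap.range (L d) := by
    intro p
    obtain ⟨w, hw, hi⟩ := exists_dg p.1.1 p.1.2 p.2
    refine ⟨el w, ?_⟩
    rw [L_el hw, hi]
  have hli' : LinearIndependent ℚ fun p : P =>
      (⟨Finsupp.single (c p) (1 : ℚ), hr p⟩ : LinearMap.range (L d)) := by
    apply LinearIndependent.of_comp (LinearMap.range (L d)).subtype
    exact hli
  have h1 := hli'.fintype_card_le_finrank
  have h2 := LinearMap.finrank_range_add_finrank_ker (L d)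
  have h3 := Submodule.finrank_mono (N1_le (d := d))
  rw [Nat.card_eq_fintype_card]
  show Fintype.card P + _ ≤ _
  omega

end Pool.Agent.Helper86.AD2.INV
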